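import Pool.Agent.W973.CES.Defs

set_option autoImplicit false

namespace Pool.Agent.W577.CES

open Pool.Agent.W973.CES Pool.Agent.NPC

theorem cyc : S_CYC := by
  intro I M r hM hr
  refine ⟨hM, ?_⟩
  rintro ⟨k, a, hk, _, hlt, henv⟩
  have : NeZero k := ⟨by omega⟩
  obtain ⟨i, hi⟩ := Finite.exists_min (fun i : ZMod k => r (a i))
  have h1 := hr (a i) (a (i + 1)) (hlt i) (hlt (i + 1)) (henv i)
  have h2 : r (a i) ≤ r (a (i + 1)) := hi (i + 1)
  omega

end Pool.Agent.W577.CES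

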